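import Pool.Agent.Results.MP_48685d_an.Unrestricted

/-!
# Boundary values in `H^p(T_Γ)`, `0 < p ≤ 1`, at all points of the closed cone, uniformly

For a regular cone `Γ`, `0 < p ≤ 1` and `F ∈ H^p(T_Γ)` with boundary function `f`:
`∫ |F(x + i(y + h)) - F(x + iy)|^p dx ≤ ∫ |F(x + ih) - f(x)|^p dx` for all `y, h ∈ Γ`, and
`y ↦ F(· + iy)` extends to a uniformly continuous map from the closed cone to `L^p`, whose value at
`0` is `f`.
-/

open MeasureTheory Metric Set Filter Topology Real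
open scoped ENNReal NNReal

namespace Pool.Agent.Results.MP_48685d_an.ClosedCone

open Pool.Agent.Results.MP_48685d_an.Unrestricted

variable {n : ℕ}

section gen

variable {α : Type*} [MeasurableSpace α] (μ : Measure α) {p : ℝ}

theorem dsymm (a b : α → ℂ) :
    ∫⁻ x, ‖a x - b x‖ₑ ^ p ∂μ = ∫⁻ x, ‖b x - a x‖ₑ ^ p ∂μ := by
  refine lintegral_congr fun x => ?_
  rw [← enorm_neg, neg_sub]

theorem tri2 (hp0 : 0 < p) (hp1 : p ≤ 1) (a b c : α → ℂ) (ha : AEMeasurable a μ)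
    (hb : AEMeasurable b μ) :
    ∫⁻ x, ‖a x - c x‖ₑ ^ p ∂μ ≤ ∫⁻ x, ‖a x - b x‖ₑ ^ p ∂μ + ∫⁻ x, ‖b x - c x‖ₑ ^ p ∂μ := by
  have m1 : AEMeasurable (fun x => ‖a x - b x‖ₑ ^ p) μ := (ha.sub hb).enorm.pow_const p
  rw [← lintegral_add_left' m1]
  exact lintegral_mono fun x => tri hp0 hp1 _ _ _

/-- Completeness of `L^p`, `0 < p ≤ 1`. -/
theorem complete (hp0 : 0 < p) (hp1 : p ≤ 1) (u : ℕ → α → ℂ) (hu : ∀ k, AEMeasurable (u k) μ)
    (hc : ∀ ε : ℝ≥0∞, 0 < ε → ∃ N : ℕ, ∀ j ≥ N, ∀ k ≥ N, ∫⁻ x, ‖u j x - u k x‖ₑ ^ p ∂μ ≤ ε) :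
    ∃ g : α → ℂ, Measurable g ∧
      ∀ ε : ℝ≥0∞, 0 < ε → ∃ N : ℕ, ∀ j ≥ N, ∫⁻ x, ‖u j x - g x‖ₑ ^ p ∂μ ≤ ε := by
  have hpos : ∀ k : ℕ, 0 < (2 : ℝ≥0∞)⁻¹ ^ k := fun k =>
    pos_iff_ne_zero.2 (pow_ne_zero k (ENNReal.inv_ne_zero.2 (by norm_num)))
  choose N hN using fun k : ℕ => hc ((2 : ℝ≥0∞)⁻¹ ^ k) (hpos k)
  let φ : ℕ → ℕ := fun k => (Finset.range (k + 1)).sup N + k
  have hφN : ∀ k, N k ≤ φ k := fun k =>
    (Finset.le_sup (f := N) (Finset.self_mem_range_succ k)).trans (Nat.le_add_right _ _)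
  have hφs : ∀ k, φ k ≤ φ (k + 1) := by
    intro k
    have : (Finset.range (k + 1)).sup N ≤ (Finset.range (k + 1 + 1)).sup N :=
      Finset.sup_mono (Finset.range_mono (by omega))
    simp only [φ]
    omega
  have hφk : ∀ k, k ≤ φ k := fun k => Nat.le_add_left _ _
  have hφt : Tendsto φ atTop atTop := tendsto_atTop_mono hφk tendsto_id
  let b : ℕ → α → ℝ≥0∞ := fun k x => ‖u (φ k) x - u (φ (k + 1)) x‖ₑ ^ p
  have hbm : ∀ k, AEMeasurable (b k) μ := fun k => ((hu _).sub (hu _)).enorm.pow_const p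
  have hbk : ∀ k, ∫⁻ x, b k x ∂μ ≤ (2 : ℝ≥0∞)⁻¹ ^ k := fun k =>
    hN k _ (hφN k) _ ((hφN k).trans (hφs k))
  have hsum : ∫⁻ x, ∑' k, b k x ∂μ ≠ ∞ := by
    rw [lintegral_tsum hbm]
    refine ne_top_of_le_ne_top ?_ (ENNReal.tsum_le_tsum hbk)
    rw [ENNReal.tsum_geometric]
    rw [ENNReal.one_sub_inv_two, inv_inv]
    exact ENNReal.ofNat_ne_top
  have hae : ∀ᵐ x ∂μ, ∃ l : ℂ, Tendsto (fun k => u (φ k) x) atTop (𝓝 l) := by
    filter_upwards [ae_lt_top' (AEMeasurable.ennreal_tsum hbm) hsum] with x hx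
    have h0 := ENNReal.tendsto_atTop_zero_of_tsum_ne_top hx.ne
    obtain ⟨K, hK⟩ := eventually_atTop.1 ((ENNReal.tendsto_nhds_zero.1 h0) 1 one_pos)
    have hcs : CauchySeq (fun k => u (φ (k + K)) x) := by
      refine cauchySeq_of_edist_le_of_tsum_ne_top (fun k => b (k + K) x) ?_ ?_
      · intro k
        have h1 : b (k + K) x ≤ 1 := hK _ (Nat.le_add_left _ _)
        have e1 : (k.succ + K) = (k + K) + 1 := by omega
        rw [e1, edist_eq_enorm_sub]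
        calc ‖u (φ (k + K)) x - u (φ (k + K + 1)) x‖ₑ = b (k + K) x ^ (1 / p) := by
              simp only [b]
              rw [← ENNReal.rpow_mul, mul_one_div_cancel hp0.ne', ENNReal.rpow_one]
          _ ≤ b (k + K) x ^ (1 : ℝ) :=
              ENNReal.rpow_le_rpow_of_exponent_ge h1 (by rw [le_div_iff₀ hp0]; linarith)
          _ = b (k + K) x := ENNReal.rpow_one _
      · exact ne_top_of_le_ne_top hx.ne
          (ENNReal.tsum_comp_le_tsum_of_injective (add_left_injective K) (fun k => b k x))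
    obtain ⟨l, hl⟩ := cauchySeq_tendsto_of_complete hcs
    exact ⟨l, (tendsto_add_atTop_iff_nat (f := fun k => u (φ k) x) K).1 hl⟩
  obtain ⟨g, hg, hlim⟩ := measurable_limit_of_tendsto_metrizable_ae (L := atTop)
    (fun k => hu (φ k)) hae
  refine ⟨g, hg, fun ε hε => ?_⟩
  obtain ⟨M, hM⟩ := hc ε hε
  refine ⟨M, fun j hj => ?_⟩
  have hE : Continuous (fun z : ℂ => ‖z‖ₑ ^ p) :=
    (ENNReal.continuous_rpow_const).comp continuous_enorm
  calc ∫⁻ x, ‖u j x - g x‖ₑ ^ p ∂μ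
      = ∫⁻ x, liminf (fun k => ‖u j x - u (φ k) x‖ₑ ^ p) atTop ∂μ := by
        apply lintegral_congr_ae
        filter_upwards [hlim] with x hx
        exact (((hE.tendsto _).comp (tendsto_const_nhds.sub hx)).liminf_eq).symm
    _ ≤ liminf (fun k => ∫⁻ x, ‖u j x - u (φ k) x‖ₑ ^ p ∂μ) atTop :=
        lintegral_liminf_le' fun k => ((hu j).sub (hu _)).enorm.pow_const p
    _ ≤ liminf (fun _ : ℕ => ε) atTop := by
        refine liminf_le_liminf ?_
        filter_upwards [eventually_ge_atTop M] with k hk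
        exact hM j hj _ (hk.trans (hφk k))
    _ = ε := liminf_const ε

end gen

section cone

variable {Γ : Set (Fin n → ℝ)} (hΓo : IsOpen Γ) (hconv : Convex ℝ Γ)
    (hcone : ∀ y ∈ Γ, ∀ t : ℝ, 0 < t → t • y ∈ Γ) {F : (Fin n → ℂ) → ℂ}
    (hF : DifferentiableOn ℂ F (tube Γ)) {p : ℝ} (hp0 : 0 < p) (hp1 : p ≤ 1)
    (C : ℝ≥0∞) (hC : C ≠ ∞) (hb : ∀ y ∈ Γ, ∫⁻ x, ‖F (pt x y)‖ₑ ^ p ≤ C)
    {e : Fin n → ℝ} (he : e ∈ Γ) (f : (Fin n → ℝ) → ℂ)

include hΓo hconv hcone hF hp0 hp1 hC hb he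

omit hp1 he in
theorem mono' {y0 y1 : Fin n → ℝ} (h0 : y0 ∈ Γ) (h1 : y1 ∈ Γ) :
    ∫⁻ x, ‖F (pt x (y0 + y1))‖ₑ ^ p ≤ ∫⁻ x, ‖F (pt x y0)‖ₑ ^ p := by
  have hq : 0 < p / 2 := by positivity
  have hsq : ∀ z : ℂ, (‖z‖ₑ ^ (p / 2)) ^ 2 = ‖z‖ₑ ^ p := by
    intro z
    rw [← ENNReal.rpow_natCast, ← ENNReal.rpow_mul]
    congr 1
    push_cast
    ring
  have h := mono hΓo hconv hcone hF hq C hC (by simpa only [hsq] using hb) h0 h1
  simpa only [hsq] using h

theorem cont_at {h : Fin n → ℝ} (hh : h ∈ Γ) (y : ℕ → Fin n → ℝ) (hy : ∀ j, y j ∈ Γ)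
    (hylim : Tendsto y atTop (𝓝 0)) :
    Tendsto (fun j => ∫⁻ x, ‖F (pt x (h + y j)) - F (pt x h)‖ₑ ^ p) atTop (𝓝 0) := by
  have hFc : ContinuousOn F (tube Γ) := hF.continuousOn
  have hadd : ∀ {a b : Fin n → ℝ}, a ∈ Γ → b ∈ Γ → a + b ∈ Γ := by
    intro a b ha hb'
    have := cone_mem hconv hcone ha hb' (t := 1) (by norm_num)
    simpa using this
  have hslm : ∀ {y : Fin n → ℝ}, y ∈ Γ → Measurable (fun x => F (pt x y)) :=
    fun hy => (measurable_slice hFc hy).measurable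
  apply BL volume (fun j x => F (pt x (h + y j))) (fun x => F (pt x h)) hp0 hp1
    (fun j => (hslm (hadd hh (hy j))).aemeasurable) (hslm hh).aemeasurable
  · refine Eventually.of_forall fun x => ?_
    have hFat : ContinuousAt F (pt x h) :=
      hFc.continuousAt ((isOpen_tube hΓo).mem_nhds (pt_mem hh))
    have h2 : Continuous (fun v : Fin n → ℝ => pt x (h + v)) :=
      continuous_pt.comp (by fun_prop : Continuous fun v : Fin n → ℝ => (x, h + v))
    have h3 := (h2.tendsto 0).comp hylim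
    simp only [add_zero] at h3
    exact hFat.tendsto.comp h3
  · exact ne_top_of_le_ne_top hC (hb _ hh)
  · exact fun j => mono' hΓo hconv hcone hF hp0 C hC hb hh (hy j)

/-- The main estimate. -/
theorem shift (hf : ∀ᵐ x, Tendsto (fun t : ℝ => F (pt x (t • e))) (𝓝[>] 0) (𝓝 (f x)))
    (hmain : Tendsto (fun y => ∫⁻ x, ‖F (pt x y) - f x‖ₑ ^ p) (𝓝[Γ] 0) (𝓝 0))
    {h y : Fin n → ℝ} (hh : h ∈ Γ) (hy : y ∈ Γ) :
    ∫⁻ x, ‖F (pt x (y + h)) - F (pt x y)‖ₑ ^ p ≤ ∫⁻ x, ‖F (pt x h) - f x‖ₑ ^ p := by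
  have hFc : ContinuousOn F (tube Γ) := hF.continuousOn
  have hadd : ∀ {a b : Fin n → ℝ}, a ∈ Γ → b ∈ Γ → a + b ∈ Γ := by
    intro a b ha hb'
    have := cone_mem hconv hcone ha hb' (t := 1) (by norm_num)
    simpa using this
  let η : ℕ → ℝ := fun j => 1 / ((j : ℝ) + 1)
  have hη0 : ∀ j, 0 < η j := fun j => by simp only [η]; positivity
  have hηlim : Tendsto η atTop (𝓝 0) := tendsto_one_div_add_atTop_nhds_zero_nat
  have hηlim' : Tendsto η atTop (𝓝[>] 0) :=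
    tendsto_nhdsWithin_iff.mpr ⟨hηlim, Eventually.of_forall hη0⟩
  have hse : ∀ {s : ℝ}, 0 < s → s • e ∈ Γ := fun hs => hcone _ he _ hs
  have hslm : ∀ {y : Fin n → ℝ}, y ∈ Γ → Measurable (fun x => F (pt x y)) :=
    fun hy => (measurable_slice hFc hy).measurable
  have hfm : AEMeasurable f := by
    apply aemeasurable_of_tendsto_metrizable_ae (atTop : Filter ℕ)
      (f := fun j x => F (pt x (η j • e)))
    · exact fun j => (hslm (hse (hη0 j))).aemeasurable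
    · filter_upwards [hf] with x hx
      exact hx.comp hηlim'
  have hηe0 : Tendsto (fun j => η j • e) atTop (𝓝 0) := by
    have hc : Continuous (fun t : ℝ => t • e) := by fun_prop
    have := (hc.tendsto 0).comp hηlim
    simpa [Function.comp_def] using this
  let κ : (Fin n → ℝ) → ℝ≥0∞ := fun v => ∫⁻ x, ‖F (pt x v) - f x‖ₑ ^ p
  have hκ : Tendsto (fun j => κ (η j • e)) atTop (𝓝 0) :=
    hmain.comp (tendsto_nhdsWithin_iff.mpr
      ⟨hηe0, Eventually.of_forall fun j => hse (hη0 j)⟩)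
  let sh : (Fin n → ℂ) → (Fin n → ℂ) := fun z j => z j + ((h j : ℝ) : ℂ) * Complex.I
  have hsh : ∀ x v : Fin n → ℝ, sh (pt x v) = pt x (v + h) := by
    intro x v
    ext j
    simp only [sh, pt, Pi.add_apply]
    push_cast
    ring
  have hshd : Differentiable ℂ sh := by
    rw [differentiable_pi]
    intro j
    simp only [sh]
    fun_prop
  have hmaps : MapsTo sh (tube Γ) (tube Γ) := by
    intro z hz
    have hz' : (fun j => (z j).im) ∈ Γ := hz
    show (fun j => (sh z j).im) ∈ Γ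
    have e1 : (fun j => (sh z j).im) = (fun j => (z j).im) + h := by
      ext j
      simp [sh]
    rw [e1]
    exact hadd hz' hh
  have hGd : DifferentiableOn ℂ (fun z => F (sh z) - F z) (tube Γ) :=
    (hF.comp hshd.differentiableOn hmaps).sub hF
  have hGb : ∀ v ∈ Γ, ∫⁻ x, ‖(fun z => F (sh z) - F z) (pt x v)‖ₑ ^ p ≤ C + C := by
    intro v hv
    have hv2 : v + h ∈ Γ := hadd hv hh
    simp only [hsh]
    calc ∫⁻ x, ‖F (pt x (v + h)) - F (pt x v)‖ₑ ^ p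
        ≤ ∫⁻ x, (‖F (pt x (v + h))‖ₑ ^ p + ‖F (pt x v)‖ₑ ^ p) := by
          apply lintegral_mono
          intro x
          have := tri hp0 hp1 (F (pt x (v + h))) 0 (F (pt x v))
          simpa using this
      _ = (∫⁻ x, ‖F (pt x (v + h))‖ₑ ^ p) + ∫⁻ x, ‖F (pt x v)‖ₑ ^ p := by
          rw [lintegral_add_left ((hslm hv2).enorm.pow_const p)]
      _ ≤ C + C := add_le_add (hb _ hv2) (hb _ hv)
  have hev : ∀ᶠ j in atTop, y - η j • e ∈ Γ := by
    have h1 : Tendsto (fun j => y - η j • e) atTop (𝓝 y) := by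
      simpa using (tendsto_const_nhds (x := y)).sub hηe0
    exact h1 (hΓo.mem_nhds hy)
  have hlim : Tendsto (fun j => (∫⁻ x, ‖F (pt x (h + η j • e)) - F (pt x h)‖ₑ ^ p) + κ h +
      κ (η j • e)) atTop (𝓝 (0 + κ h + 0)) :=
    ((cont_at hΓo hconv hcone hF hp0 hp1 C hC hb he hh _ (fun j => hse (hη0 j)) hηe0).add
      tendsto_const_nhds).add hκ
  rw [zero_add, add_zero] at hlim
  change _ ≤ κ h
  apply ge_of_tendsto hlim
  filter_upwards [hev] with j hj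
  have hηe := hse (hη0 j)
  have h1 := mono' hΓo hconv hcone hGd hp0 (C + C) (ENNReal.add_ne_top.mpr ⟨hC, hC⟩) hGb
    hηe hj
  have e2 : η j • e + (y - η j • e) = y := by abel
  rw [e2] at h1
  simp only [hsh] at h1
  refine h1.trans ?_
  have h3 := tri3 volume hp0 hp1 (fun x => F (pt x (η j • e + h))) (fun x => F (pt x h)) f
    (fun x => F (pt x (η j • e))) (hslm (hadd hηe hh)).aemeasurable (hslm hh).aemeasurable hfm
  refine h3.trans (le_of_eq ?_)
  congr 1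
  · congr 1
    apply lintegral_congr
    intro x
    rw [add_comm (η j • e)]
  · exact dsymm volume _ _

/-- Uniform continuity on the cone. -/
theorem unif (hf : ∀ᵐ x, Tendsto (fun t : ℝ => F (pt x (t • e))) (𝓝[>] 0) (𝓝 (f x)))
    (hmain : Tendsto (fun y => ∫⁻ x, ‖F (pt x y) - f x‖ₑ ^ p) (𝓝[Γ] 0) (𝓝 0))
    {ε : ℝ≥0∞} (hε : 0 < ε) : ∃ δ : ℝ, 0 < δ ∧ ∀ y ∈ Γ, ∀ y' ∈ Γ, ‖y - y'‖ < δ →
      ∫⁻ x, ‖F (pt x y) - F (pt x y')‖ₑ ^ p ≤ ε := by
  have hFc : ContinuousOn F (tube Γ) := hF.continuousOn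
  have hadd : ∀ {a b : Fin n → ℝ}, a ∈ Γ → b ∈ Γ → a + b ∈ Γ := by
    intro a b ha hb'
    have := cone_mem hconv hcone ha hb' (t := 1) (by norm_num)
    simpa using this
  have hslm : ∀ {y : Fin n → ℝ}, y ∈ Γ → Measurable (fun x => F (pt x y)) :=
    fun hy => (measurable_slice hFc hy).measurable
  have hε2 : 0 < ε / 2 := ENNReal.half_pos hε.ne'
  have h1 := (ENNReal.tendsto_nhds_zero.1 hmain) _ hε2
  rw [eventually_nhdsWithin_iff, Metric.eventually_nhds_iff] at h1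
  obtain ⟨ρ, hρ, h1⟩ := h1
  obtain ⟨r, hr, hball⟩ := Metric.isOpen_iff.1 hΓo e he
  obtain ⟨t, ht, htρ⟩ : ∃ t : ℝ, 0 < t ∧ t * (‖e‖ + r) < ρ := by
    refine ⟨ρ / (2 * (‖e‖ + r)), by positivity, ?_⟩
    have : 0 < ‖e‖ + r := by positivity
    field_simp
    linarith
  have hte : t • e ∈ Γ := hcone _ he _ ht
  have hten : ‖t • e‖ < ρ := by
    rw [norm_smul, Real.norm_of_nonneg ht.le]
    nlinarith [mul_pos ht hr]
  refine ⟨r * t, by positivity, ?_⟩
  intro y hy y' hy' hyy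
  have hu : (y' - y) + t • e ∈ Γ := by
    have h2 : e + t⁻¹ • (y' - y) ∈ Γ := by
      apply hball
      rw [mem_ball, dist_eq_norm, add_sub_cancel_left, norm_smul, norm_inv,
        Real.norm_of_nonneg ht.le, norm_sub_rev, inv_mul_lt_iff₀ ht]
      linarith
    have h3 := hcone _ h2 t ht
    rw [smul_add, smul_smul, mul_inv_cancel₀ ht.ne', one_smul, add_comm] at h3
    exact h3
  have hun : ‖(y' - y) + t • e‖ < ρ := by
    calc ‖(y' - y) + t • e‖ ≤ ‖y' - y‖ + ‖t • e‖ := norm_add_le _ _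
      _ < r * t + t * ‖e‖ := by
          rw [norm_smul, Real.norm_of_nonneg ht.le, norm_sub_rev]
          linarith
      _ < ρ := by linarith
  have a1 := shift hΓo hconv hcone hF hp0 hp1 C hC hb he f hf hmain hu hy
  have a2 := shift hΓo hconv hcone hF hp0 hp1 C hC hb he f hf hmain hte hy'
  have e1 : y + ((y' - y) + t • e) = y' + t • e := by abel
  rw [e1] at a1
  have b1 := h1 (y := (y' - y) + t • e) (by rw [dist_zero_right]; exact hun) hu
  have b2 := h1 (y := t • e) (by rw [dist_zero_right]; exact hten) hte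
  have h5 := tri2 volume hp0 hp1 (fun x => F (pt x y)) (fun x => F (pt x (y' + t • e)))
    (fun x => F (pt x y')) (hslm hy).aemeasurable (hslm (hadd hy' hte)).aemeasurable
  calc ∫⁻ x, ‖F (pt x y) - F (pt x y')‖ₑ ^ p ≤ _ := h5
    _ ≤ ε / 2 + ε / 2 := by
        refine add_le_add ?_ (a2.trans b2)
        rw [dsymm]
        exact a1.trans b1
    _ = ε := ENNReal.add_halves ε

end cone

/-- **Boundary values at all points of the closed cone, uniformly.** -/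
theorem result (n : ℕ) (Γ : Set (Fin n → ℝ)) (hΓ : IsRegularCone Γ) (p : ℝ) (hp0 : 0 < p)
    (hp1 : p ≤ 1) (F : (Fin n → ℂ) → ℂ) (hF : F ∈ Hp p Γ) (f : (Fin n → ℝ) → ℂ)
    (hf : IsBoundaryFunction Γ F f) :
    (∀ y ∈ Γ, ∀ h ∈ Γ, ∫⁻ x : Fin n → ℝ, ‖F (pt x (y + h)) - F (pt x y)‖ₑ ^ p ≤
      ∫⁻ x : Fin n → ℝ, ‖F (pt x h) - f x‖ₑ ^ p) ∧
    ∃ g : (Fin n → ℝ) → (Fin n → ℝ) → ℂ,
      (∀ y ∈ Γ, g y = fun x => F (pt x y)) ∧ (∀ᵐ x : Fin n → ℝ, g 0 x = f x) ∧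
      (∀ b ∈ closure Γ, AEMeasurable (g b) volume ∧ ∫⁻ x : Fin n → ℝ, ‖g b x‖ₑ ^ p < ∞) ∧
      ∀ ε : ℝ≥0∞, 0 < ε → ∃ δ : ℝ, 0 < δ ∧ ∀ b ∈ closure Γ, ∀ b' ∈ closure Γ, ‖b - b'‖ < δ →
        ∫⁻ x : Fin n → ℝ, ‖g b x - g b' x‖ₑ ^ p ≤ ε := by
  classical
  obtain ⟨e, he⟩ := hΓ.nonempty
  obtain ⟨Γ₀, hΓ₀, heΓ₀⟩ := exists_subcone hΓ he
  obtain ⟨hFd, hFb⟩ := hF
  set C : ℝ≥0∞ := ⨆ y ∈ Γ, ∫⁻ x : Fin n → ℝ, ‖F (pt x y)‖ₑ ^ p with hCdef
  have hC : C ≠ ∞ := hFb.ne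
  have hb : ∀ y ∈ Γ, ∫⁻ x : Fin n → ℝ, ‖F (pt x y)‖ₑ ^ p ≤ C := fun y hy =>
    le_iSup₂ (f := fun y (_ : y ∈ Γ) => ∫⁻ x : Fin n → ℝ, ‖F (pt x y)‖ₑ ^ p) y hy
  have hray : ∀ᵐ x, Tendsto (fun t : ℝ => F (pt x (t • e))) (𝓝[>] 0) (𝓝 (f x)) := by
    filter_upwards [hf Γ₀ hΓ₀] with x hx
    apply hx.comp
    rw [tendsto_nhdsWithin_iff]
    constructor
    · have hc : Continuous (fun t : ℝ => t • e) := by fun_prop
      have := hc.tendsto 0
      rw [zero_smul] at this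
      exact this.mono_left nhdsWithin_le_nhds
    · filter_upwards [self_mem_nhdsWithin] with t ht
      exact hΓ₀.1.smul_mem _ heΓ₀ t ht
  have hmain := main hΓ.isOpen hΓ.convex hΓ.smul_mem hFd hp0 hp1 C hC hb he f hray
  have hunif := fun {ε : ℝ≥0∞} (hε : 0 < ε) =>
    unif hΓ.isOpen hΓ.convex hΓ.smul_mem hFd hp0 hp1 C hC hb he f hray hmain hε
  refine ⟨fun y hy h hh => shift hΓ.isOpen hΓ.convex hΓ.smul_mem hFd hp0 hp1 C hC hb he f hray
    hmain hh hy, ?_⟩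
  have hslm : ∀ {y : Fin n → ℝ}, y ∈ Γ → Measurable (fun x => F (pt x y)) :=
    fun hy => (measurable_slice hFd.continuousOn hy).measurable
  -- the value at a point of the closed cone
  have hex : ∀ b : Fin n → ℝ, ∃ g : (Fin n → ℝ) → ℂ, (b ∈ Γ → g = fun x => F (pt x b)) ∧
      (b ∈ closure Γ → AEMeasurable g volume ∧ ∀ ε : ℝ≥0∞, 0 < ε → ∃ δ : ℝ, 0 < δ ∧ ∀ y ∈ Γ,
        ‖y - b‖ < δ → ∫⁻ x : Fin n → ℝ, ‖F (pt x y) - g x‖ₑ ^ p ≤ ε) := by
    intro b
    by_cases hbΓ : b ∈ Γ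
    · refine ⟨fun x => F (pt x b), fun _ => rfl, fun _ => ⟨(hslm hbΓ).aemeasurable, ?_⟩⟩
      intro ε hε
      obtain ⟨δ, hδ, h1⟩ := hunif hε
      exact ⟨δ, hδ, fun y hy hyb => h1 y hy b hbΓ hyb⟩
    · by_cases hbc : b ∈ closure Γ
      · obtain ⟨u, hu, hulim⟩ := mem_closure_iff_seq_limit.mp hbc
        obtain ⟨g, hg, hg2⟩ := complete volume hp0 hp1 (fun k x => F (pt x (u k)))
          (fun k => (hslm (hu k)).aemeasurable) (by
            intro ε hε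
            obtain ⟨δ, hδ, h1⟩ := hunif hε
            obtain ⟨N, hN⟩ := (Metric.tendsto_atTop.1 hulim) (δ / 2) (by positivity)
            refine ⟨N, fun j hj k hk => h1 _ (hu j) _ (hu k) ?_⟩
            have h2 := hN j hj
            have h3 := hN k hk
            rw [← dist_eq_norm]
            calc dist (u j) (u k) ≤ dist (u j) b + dist (u k) b := dist_triangle_right _ _ _
              _ < δ := by linarith)
        refine ⟨g, fun h => absurd h hbΓ, fun _ => ⟨hg.aemeasurable, ?_⟩⟩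
        intro ε hε
        have hε2 : 0 < ε / 2 := ENNReal.half_pos hε.ne'
        obtain ⟨δ, hδ, h1⟩ := hunif hε2
        obtain ⟨N, hN⟩ := hg2 _ hε2
        refine ⟨δ / 2, by positivity, fun y hy hyb => ?_⟩
        obtain ⟨M, hM⟩ := (Metric.tendsto_atTop.1 hulim) (δ / 2) (by positivity)
        have h2 := hM (max M N) (le_max_left _ _)
        have h3 : ‖y - u (max M N)‖ < δ := by
          rw [← dist_eq_norm] at hyb ⊢
          calc dist y (u (max M N)) ≤ dist y b + dist (u (max M N)) b :=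
                dist_triangle_right _ _ _
            _ < δ := by linarith
        have h4 := tri2 volume hp0 hp1 (fun x => F (pt x y)) (fun x => F (pt x (u (max M N)))) g
          (hslm hy).aemeasurable (hslm (hu _)).aemeasurable
        calc ∫⁻ x : Fin n → ℝ, ‖F (pt x y) - g x‖ₑ ^ p ≤ _ := h4
          _ ≤ ε / 2 + ε / 2 :=
              add_le_add (h1 _ hy _ (hu _) h3) (hN _ (le_max_right _ _))
          _ = ε := ENNReal.add_halves ε
      · exact ⟨fun _ => 0, fun h => absurd h hbΓ, fun h => absurd h hbc⟩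
  choose g hg1 hg2 using hex
  have h0c : (0 : Fin n → ℝ) ∈ closure Γ := by
    have hc : Continuous (fun t : ℝ => t • e) := by fun_prop
    have h1 : Tendsto (fun t : ℝ => t • e) (𝓝[>] 0) (𝓝 0) := by
      have := hc.tendsto 0
      rw [zero_smul] at this
      exact this.mono_left nhdsWithin_le_nhds
    refine mem_closure_of_tendsto h1 ?_
    filter_upwards [self_mem_nhdsWithin] with t ht
    exact hΓ.smul_mem _ he t ht
  have hpick : ∀ b ∈ closure Γ, ∀ δ : ℝ, 0 < δ → ∃ y ∈ Γ, ‖y - b‖ < δ := by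
    intro b hbc δ hδ
    obtain ⟨y, hy, hyb⟩ := Metric.mem_closure_iff.1 hbc δ hδ
    refine ⟨y, hy, ?_⟩
    rw [← dist_eq_norm, dist_comm]
    exact hyb
  refine ⟨g, hg1, ?_, ?_, ?_⟩
  · -- the value at zero
    have hfm : AEMeasurable f := by
      apply aemeasurable_of_tendsto_metrizable_ae (atTop : Filter ℕ)
        (f := fun (j : ℕ) x => F (pt x ((1 / ((j : ℝ) + 1)) • e)))
      · exact fun j => (hslm (hΓ.smul_mem _ he _ (by positivity))).aemeasurable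
      · filter_upwards [hray] with x hx
        exact hx.comp (tendsto_nhdsWithin_iff.mpr ⟨tendsto_one_div_add_atTop_nhds_zero_nat,
          Eventually.of_forall fun j => mem_Ioi.2 (by positivity)⟩)
    obtain ⟨m0, h0⟩ := hg2 0 h0c
    have hz : ∫⁻ x : Fin n → ℝ, ‖g 0 x - f x‖ₑ ^ p = 0 := by
      refine nonpos_iff_eq_zero.1 (le_of_forall_gt_imp_ge_of_dense fun ε hε => ?_)
      have hε2 : 0 < ε / 2 := ENNReal.half_pos hε.ne'
      obtain ⟨δ, hδ, h1⟩ := h0 _ hε2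
      have h2 := (ENNReal.tendsto_nhds_zero.1 hmain) _ hε2
      rw [eventually_nhdsWithin_iff, Metric.eventually_nhds_iff] at h2
      obtain ⟨ρ, hρ, h2⟩ := h2
      obtain ⟨y, hy, hy0⟩ := hpick 0 h0c (min δ ρ) (by positivity)
      have h3 := h1 y hy (hy0.trans_le (min_le_left _ _))
      have h4 := h2 (y := y) (by
        rw [dist_eq_norm]
        exact hy0.trans_le (min_le_right _ _)) hy
      have h5 := tri2 volume hp0 hp1 (g 0) (fun x => F (pt x y)) f m0 (hslm hy).aemeasurable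
      calc ∫⁻ x : Fin n → ℝ, ‖g 0 x - f x‖ₑ ^ p ≤ _ := h5
        _ ≤ ε / 2 + ε / 2 := by
            refine add_le_add ?_ h4
            rw [dsymm]
            exact h3
        _ = ε := ENNReal.add_halves ε
    have h6 := (lintegral_eq_zero_iff' ((m0.sub hfm).enorm.pow_const p)).1 hz
    filter_upwards [h6] with x hx
    have hx' : ‖g 0 x - f x‖ₑ ^ p = 0 := hx
    rw [ENNReal.rpow_eq_zero_iff_of_pos hp0, enorm_eq_zero] at hx'
    exact sub_eq_zero.1 hx'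
  · intro b hbc
    obtain ⟨h1, h2⟩ := hg2 b hbc
    refine ⟨h1, ?_⟩
    obtain ⟨δ, hδ, h3⟩ := h2 1 one_pos
    obtain ⟨y, hy, hyb⟩ := hpick b hbc δ hδ
    have h4 := h3 y hy hyb
    have h5 := tri2 volume hp0 hp1 (g b) (fun x => F (pt x y)) (fun _ => 0) h1
      (hslm hy).aemeasurable
    simp only [sub_zero] at h5
    refine h5.trans_lt (ENNReal.add_lt_top.2 ⟨?_, (hb y hy).trans_lt hFb⟩)
    rw [dsymm]
    exact h4.trans_lt ENNReal.one_lt_top
  · intro ε hε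
    have hε3 : 0 < ε / 3 := ENNReal.div_pos hε.ne' (by norm_num)
    obtain ⟨δ, hδ, h1⟩ := hunif hε3
    refine ⟨δ / 3, by positivity, fun b hbc b' hbc' hbb => ?_⟩
    obtain ⟨m1, h2⟩ := hg2 b hbc
    obtain ⟨m2, h3⟩ := hg2 b' hbc'
    obtain ⟨δ1, hδ1, h4⟩ := h2 _ hε3
    obtain ⟨δ2, hδ2, h5⟩ := h3 _ hε3
    obtain ⟨y, hy, hyb⟩ := hpick b hbc (min δ1 (δ / 3)) (by positivity)
    obtain ⟨y', hy', hyb'⟩ := hpick b' hbc' (min δ2 (δ / 3)) (by positivity)
    have h6 : ‖y - y'‖ < δ := by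
      have e1 : y - y' = (y - b) + (b - b') + (b' - y') := by abel
      rw [e1]
      have a1 := norm_add₃_le (a := y - b) (b := b - b') (c := b' - y')
      have a2 : ‖y - b‖ < δ / 3 := hyb.trans_le (min_le_right _ _)
      have a3 : ‖b' - y'‖ < δ / 3 := by
        rw [norm_sub_rev]
        exact hyb'.trans_le (min_le_right _ _)
      linarith
    have h7 := tri3 volume hp0 hp1 (g b) (fun x => F (pt x y)) (fun x => F (pt x y')) (g b')
      m1 (hslm hy).aemeasurable (hslm hy').aemeasurable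
    calc ∫⁻ x : Fin n → ℝ, ‖g b x - g b' x‖ₑ ^ p ≤ _ := h7
      _ ≤ ε / 3 + ε / 3 + ε / 3 := by
          refine add_le_add (add_le_add ?_ (h1 _ hy _ hy' h6))
            (h5 _ hy' (hyb'.trans_le (min_le_left _ _)))
          rw [dsymm]
          exact h4 _ hy (hyb.trans_le (min_le_left _ _))
      _ = ε := ENNReal.add_thirds ε

end Pool.Agent.Results.MP_48685d_an.ClosedCone
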